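import Pool.Agent.H39.T2.Def
import Pool.Agent.H73.D2.Gpl
import Pool.Agent.H18.D2.Cpl

/-!
# The second derivatives of the chart of the ball

`hE_const`: if the second derivatives at the nodes are near multiples of one nondegenerate form,
then they are nearly constant on the box. `hE_cls`: five null vectors in general position, and closed
values of the form at the velocity: the second derivatives on the box are near a closed multiple of
the conic of the five vectors. `sE_near`: the second order part of the chart.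
-/

set_option autoImplicit false

namespace Pool.T2L

open Finset Real
open Pool.V1E (Gr iC one_le_iC nd_nonneg nd_le_one ell_sum_near)
open Pool.D2G30 (gpl gpl_self gpl_pd gpl_val gpl_sub eval_gpl pdC pdC_nonneg nd ell pd_bind
  deg_bind eval_bind der_aev eval_aev ell_interp deg_pd)
open Pool.CUB46 (q2 d3 d3_le)
open Pool.POP18
open MvPolynomial (eval pderiv bind₁ aeval)

/-! ### The restriction to the time `0` -/

/-- The substitution of the time `0`. -/
noncomputable def rf : Fin 3 → MvPolynomial (Fin 2) ℝ := Fin.cons 0 MvPolynomial.X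

/-- The restriction to the time `0`. -/
noncomputable def rs (P : MvPolynomial (Fin 3) ℝ) : MvPolynomial (Fin 2) ℝ := bind₁ rf P

theorem rf_zero : rf 0 = 0 := rfl

theorem rf_succ (i : Fin 2) : rf i.succ = MvPolynomial.X i := rfl

theorem eval_rs (P : MvPolynomial (Fin 3) ℝ) (x : Fin 2 → ℝ) :
    eval x (rs P) = eval (Fin.cons 0 x) P := by
  unfold rs
  rw [eval_bind]
  have e : (fun o => eval x (rf o)) = (Fin.cons 0 x : Fin 3 → ℝ) := by
    funext o
    refine Fin.cases ?_ (fun i => ?_) o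
    · rw [rf_zero, map_zero]
      rfl
    · rw [rf_succ, MvPolynomial.eval_X]
      rfl
  rw [e]

theorem deg_rs (P : MvPolynomial (Fin 3) ℝ) : (rs P).totalDegree ≤ P.totalDegree := by
  have h := deg_bind rf (K := 1) (fun o => by
    refine Fin.cases ?_ (fun i => ?_) o
    · rw [rf_zero, MvPolynomial.totalDegree_zero]
      exact Nat.zero_le _
    · rw [rf_succ, MvPolynomial.totalDegree_X]) P
  rwa [mul_one] at h

theorem pd_rs (P : MvPolynomial (Fin 3) ℝ) (i : Fin 2) :
    pderiv i (rs P) = rs (pderiv i.succ P) := by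
  unfold rs
  rw [pd_bind, Fin.sum_univ_succ, rf_zero, map_zero, mul_zero, zero_add,
    Finset.sum_eq_single i]
  · rw [rf_succ, MvPolynomial.pderiv_X, Pi.single_eq_same, mul_one]
  · intro j _ hj
    rw [rf_succ, MvPolynomial.pderiv_X, Pi.single_eq_of_ne hj, mul_zero]
  · intro h
    exact absurd (Finset.mem_univ _) h

theorem pd_comm {σ : Type} (P : MvPolynomial σ ℝ) (j k : σ) :
    pderiv j (pderiv k P) = pderiv k (pderiv j P) := by
  classical
  induction P using MvPolynomial.induction_on with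
  | C r => simp
  | add p q hp hq => rw [map_add, map_add, map_add, map_add, hp, hq]
  | mul_X p i hp =>
    have hc : ∀ a b : σ, pderiv a (Pi.single (M := fun _ => MvPolynomial σ ℝ) b 1 i) = 0 := by
      intro a b
      by_cases h : i = b
      · subst h
        rw [Pi.single_eq_same]
        exact MvPolynomial.pderiv_one
      · rw [Pi.single_eq_of_ne h, map_zero]
    simp only [Derivation.leibniz, smul_eq_mul, map_add, MvPolynomial.pderiv_X, hc, hp]
    ring

theorem hE_rs (P : MvPolynomial (Fin 3) ℝ) (j k : Fin 3) (x : Fin 2 → ℝ) :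
    hE P j k x = eval x (rs (pderiv j (pderiv k P))) := (eval_rs _ _).symm

theorem hE_symm (P : MvPolynomial (Fin 3) ℝ) (j k : Fin 3) (x : Fin 2 → ℝ) :
    hE P j k x = hE P k j x := by
  unfold hE
  rw [pd_comm]

theorem deg_rs2 {P : MvPolynomial (Fin 3) ℝ} {K : ℕ} (hP : P.totalDegree ≤ K) (j k : Fin 3) :
    (rs (pderiv j (pderiv k P))).totalDegree ≤ K :=
  (deg_rs _).trans ((deg_pd _ _).trans ((deg_pd _ _).trans hP))

theorem sE_rs (P : MvPolynomial (Fin 3) ℝ) (x y : Fin 2 → ℝ) : sE P x y = sF (rs P) x y := by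
  unfold sE sF
  rw [eval_rs, eval_rs]
  congr 1
  refine Finset.sum_congr rfl fun i _ => ?_
  rw [pd_rs, eval_rs]

/-! ### Segments -/

/-- The box. -/
def bx (x : Fin 2 → ℝ) : Prop := ∀ i, -1 ≤ x i ∧ x i ≤ 2

/-- The segment. -/
noncomputable def sg (x y : Fin 2 → ℝ) (i : Fin 2) : Polynomial ℝ :=
  Polynomial.C (x i) + Polynomial.C (y i - x i) * Polynomial.X

theorem sg_eval (x y : Fin 2 → ℝ) (t : ℝ) :
    (fun i => (sg x y i).eval t) = fun i => x i + (y i - x i) * t := by
  funext i
  simp [sg]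

theorem sg_der (x y : Fin 2 → ℝ) (i : Fin 2) :
    Polynomial.derivative (sg x y i) = Polynomial.C (y i - x i) := by
  simp [sg]

theorem bx_seg {x y : Fin 2 → ℝ} (hx : bx x) (hy : bx y) {t : ℝ} (ht : t ∈ Set.Icc (0 : ℝ) 1) :
    bx (fun i => x i + (y i - x i) * t) := by
  intro i
  have h1 := hx i
  have h2 := hy i
  obtain ⟨t0, t1⟩ := ht
  constructor
  · nlinarith [mul_nonneg t0 (by linarith : 0 ≤ y i + 1),
      mul_nonneg (by linarith : 0 ≤ 1 - t) (by linarith : 0 ≤ x i + 1)]
  · nlinarith [mul_nonneg t0 (by linarith : 0 ≤ 2 - y i),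
      mul_nonneg (by linarith : 0 ≤ 1 - t) (by linarith : 0 ≤ 2 - x i)]

theorem mvt1 (f : Polynomial ℝ) {M : ℝ}
    (h : ∀ t ∈ Set.Icc (0 : ℝ) 1, |f.derivative.eval t| ≤ M) {t : ℝ}
    (ht : t ∈ Set.Icc (0 : ℝ) 1) : |f.eval t - f.eval 0| ≤ M := by
  have h1 := Convex.norm_image_sub_le_of_norm_hasDerivWithin_le (f := fun t => f.eval t)
    (f' := fun t => f.derivative.eval t) (s := Set.Icc (0 : ℝ) 1) (x := 0) (y := t) (C := M)
    (fun x _ => (f.hasDerivAt x).hasDerivWithinAt) (fun x hx => by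
      rw [Real.norm_eq_abs]
      exact h x hx) (convex_Icc 0 1) ⟨le_rfl, zero_le_one⟩ ht
  rw [Real.norm_eq_abs, Real.norm_eq_abs, sub_zero, abs_of_nonneg ht.1] at h1
  have hM : 0 ≤ M := (abs_nonneg _).trans (h 0 ⟨le_rfl, zero_le_one⟩)
  exact h1.trans (mul_le_of_le_one_right hM ht.2)

theorem tay1 (f : Polynomial ℝ) {M κ : ℝ}
    (h : ∀ t ∈ Set.Icc (0 : ℝ) 1, |f.derivative.derivative.eval t - κ| ≤ M) :
    |f.eval 1 - f.eval 0 - f.derivative.eval 0 - κ / 2| ≤ M := by
  obtain ⟨g, hg⟩ : ∃ g : Polynomial ℝ, g = f - Polynomial.C (f.derivative.eval 0) * Polynomial.X -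
    Polynomial.C (κ / 2) * Polynomial.X ^ 2 := ⟨_, rfl⟩
  have hg1 : g.derivative = f.derivative - Polynomial.C (f.derivative.eval 0) -
      Polynomial.C κ * Polynomial.X := by
    rw [hg]
    simp only [Polynomial.derivative_sub, Polynomial.derivative_C_mul, Polynomial.derivative_X,
      Polynomial.derivative_X_pow, mul_one]
    have e : (Polynomial.C κ : Polynomial ℝ) = Polynomial.C (κ / 2) * Polynomial.C 2 := by
      rw [← Polynomial.C_mul]
      congr 1
      ring
    rw [e]
    push_cast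
    simp only [Polynomial.C_ofNat]
    ring
  have hg2 : g.derivative.derivative = f.derivative.derivative - Polynomial.C κ := by
    rw [hg1]
    simp
  have h0 : g.derivative.eval 0 = 0 := by
    rw [hg1]
    simp
  have h1 : ∀ t ∈ Set.Icc (0 : ℝ) 1, |g.derivative.eval t| ≤ M := by
    intro t ht
    have h2 := mvt1 g.derivative (M := M) (fun t ht => by
      rw [hg2, Polynomial.eval_sub, Polynomial.eval_C]
      exact h t ht) ht
    rwa [h0, sub_zero] at h2
  have h2 := mvt1 g h1 (t := 1) ⟨zero_le_one, le_rfl⟩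
  have e : g.eval 1 - g.eval 0 = f.eval 1 - f.eval 0 - f.derivative.eval 0 - κ / 2 := by
    rw [hg]
    simp
    ring
  rwa [e] at h2

/-- Two points of the box. -/
theorem dif_small {p : MvPolynomial (Fin 2) ℝ} {M : ℝ}
    (h : ∀ z, bx z → ∀ i, |eval z (pderiv i p)| ≤ M) {x y : Fin 2 → ℝ} (hx : bx x) (hy : bx y) :
    |eval y p - eval x p| ≤ 6 * M := by
  have hM : 0 ≤ M := (abs_nonneg _).trans (h x hx 0)
  obtain ⟨f, hf⟩ : ∃ f : Polynomial ℝ, f = aeval (sg x y) p := ⟨_, rfl⟩
  have hfe : ∀ t, f.eval t = eval (fun i => x i + (y i - x i) * t) p := by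
    intro t
    rw [hf, eval_aev, sg_eval]
  have hfd : ∀ t, f.derivative.eval t = ∑ i, eval (fun i => x i + (y i - x i) * t) (pderiv i p) *
      (y i - x i) := by
    intro t
    rw [hf, der_aev, Polynomial.eval_finsetSum]
    refine Finset.sum_congr rfl fun i _ => ?_
    rw [Polynomial.eval_mul, eval_aev, sg_eval, sg_der, Polynomial.eval_C]
  have hd : ∀ i, |y i - x i| ≤ 3 := by
    intro i
    have h1 := hx i
    have h2 := hy i
    rw [abs_le]
    constructor <;> linarith
  have h1 := mvt1 f (M := 6 * M) (fun t ht => by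
    rw [hfd]
    refine (Finset.abs_sum_le_sum_abs _ _).trans ?_
    have h2 : ∀ i ∈ (Finset.univ : Finset (Fin 2)),
        |eval (fun i => x i + (y i - x i) * t) (pderiv i p) * (y i - x i)| ≤ M * 3 := by
      intro i _
      rw [abs_mul]
      exact mul_le_mul (h _ (bx_seg hx hy ht) i) (hd i) (abs_nonneg _) hM
    refine (Finset.sum_le_sum h2).trans (le_of_eq ?_)
    rw [Finset.sum_const, Finset.card_univ, Fintype.card_fin, nsmul_eq_mul]
    push_cast
    ring) (t := 1) ⟨zero_le_one, le_rfl⟩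
  rw [hfe, hfe] at h1
  have e1 : (fun i => x i + (y i - x i) * 1) = y := by
    funext i
    ring
  have e2 : (fun i => x i + (y i - x i) * 0) = x := by
    funext i
    ring
  rwa [e1, e2] at h1

/-- **The second order part.** -/
theorem sE_near {P : MvPolynomial (Fin 3) ℝ} {M : ℝ} {c : Fin 2 → Fin 2 → ℝ}
    (h : ∀ z, bx z → ∀ i j : Fin 2, |hE P i.succ j.succ z - c i j| ≤ M) {x y : Fin 2 → ℝ}
    (hx : bx x) (hy : bx y) (hd : ∀ i, |y i - x i| ≤ 1) :
    |sE P x y - (∑ i, ∑ j, c i j * ((y i - x i) * (y j - x j))) / 2| ≤ 4 * M := by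
  have hM : 0 ≤ M := (abs_nonneg _).trans (h x hx 0 0)
  obtain ⟨f, hf⟩ : ∃ f : Polynomial ℝ, f = aeval (sg x y) (rs P) := ⟨_, rfl⟩
  have hfe : ∀ t, f.eval t = eval (fun i => x i + (y i - x i) * t) (rs P) := by
    intro t
    rw [hf, eval_aev, sg_eval]
  have hfd : ∀ t, f.derivative.eval t = ∑ i, eval (fun i => x i + (y i - x i) * t)
      (pderiv i (rs P)) * (y i - x i) := by
    intro t
    rw [hf, der_aev, Polynomial.eval_finsetSum]
    refine Finset.sum_congr rfl fun i _ => ?_
    rw [Polynomial.eval_mul, eval_aev, sg_eval, sg_der, Polynomial.eval_C]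
  have hfdd : ∀ t, f.derivative.derivative.eval t = ∑ i, ∑ j, hE P i.succ j.succ
      (fun i => x i + (y i - x i) * t) * ((y i - x i) * (y j - x j)) := by
    intro t
    rw [hf, der_aev, Polynomial.derivative_sum, Polynomial.eval_finsetSum, Finset.sum_comm]
    refine Finset.sum_congr rfl fun j _ => ?_
    rw [sg_der, Polynomial.derivative_mul, Polynomial.derivative_C, mul_zero, add_zero,
      Polynomial.eval_mul, Polynomial.eval_C, der_aev, Polynomial.eval_finsetSum, Finset.sum_mul]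
    refine Finset.sum_congr rfl fun i _ => ?_
    rw [Polynomial.eval_mul, eval_aev, sg_eval, sg_der, Polynomial.eval_C, pd_rs, pd_rs, ← hE_rs]
    ring
  have h1 := tay1 f (M := 4 * M) (κ := ∑ i, ∑ j, c i j * ((y i - x i) * (y j - x j)))
    (fun t ht => by
      rw [hfdd, ← Finset.sum_sub_distrib]
      refine (Finset.abs_sum_le_sum_abs _ _).trans ?_
      have h2 : ∀ i ∈ (Finset.univ : Finset (Fin 2)),
          |∑ j, hE P i.succ j.succ (fun i => x i + (y i - x i) * t) *
            ((y i - x i) * (y j - x j)) - ∑ j, c i j * ((y i - x i) * (y j - x j))| ≤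
            2 * M := by
        intro i _
        rw [← Finset.sum_sub_distrib]
        refine (Finset.abs_sum_le_sum_abs _ _).trans ?_
        have h3 : ∀ j ∈ (Finset.univ : Finset (Fin 2)),
            |hE P i.succ j.succ (fun i => x i + (y i - x i) * t) *
              ((y i - x i) * (y j - x j)) - c i j * ((y i - x i) * (y j - x j))| ≤ M := by
          intro j _
          rw [← sub_mul, abs_mul, abs_mul]
          have h4 := h _ (bx_seg hx hy ht) i j
          have h5 : |y i - x i| * |y j - x j| ≤ 1 :=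
            mul_le_one₀ (hd i) (abs_nonneg _) (hd j)
          calc _ ≤ M * 1 := mul_le_mul h4 h5 (by positivity) hM
            _ = M := mul_one M
        refine (Finset.sum_le_sum h3).trans (le_of_eq ?_)
        rw [Finset.sum_const, Finset.card_univ, Fintype.card_fin, nsmul_eq_mul]
        push_cast
        ring
      refine (Finset.sum_le_sum h2).trans (le_of_eq ?_)
      rw [Finset.sum_const, Finset.card_univ, Fintype.card_fin, nsmul_eq_mul]
      push_cast
      ring)
  rw [hfe, hfe, hfd] at h1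
  have e1 : (fun i => x i + (y i - x i) * 1) = y := by
    funext i
    ring
  have e2 : (fun i => x i + (y i - x i) * 0) = x := by
    funext i
    ring
  rw [e1, e2] at h1
  rw [sE_rs]
  exact h1

/-! ### Multiples of one form -/

/-- The constant. -/
noncomputable def cE (K : ℕ) : ℝ := 2 * iC K 2 + 72 * pdC K 2

theorem cE_pos (K : ℕ) : 0 < cE K := by
  have h1 := one_le_iC K 2
  have h2 := pdC_nonneg K 2
  unfold cE
  linarith

/-- **Multiples of one nondegenerate form: the multiple is constant.** -/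
theorem hE_const {K : ℕ} (hK : 1 ≤ K) {P : MvPolynomial (Fin 3) ℝ} (hP : P.totalDegree ≤ K)
    {Q : Fin 3 → Fin 3 → ℝ} {T e : ℝ} (hT : 1 ≤ T) (hQ : ∀ i j, |Q i j| ≤ T)
    (hdet : 1 ≤ T * |d3 (Q 0) (Q 1) (Q 2)|) {σ : Gr K 2 → ℝ}
    (h : ∀ (β : Gr K 2) j k, |hE P j k (nd K β) - σ β * Q j k| ≤ e) {x y : Fin 2 → ℝ}
    (hx : bx x) (hy : bx y) (j k : Fin 3) : |hE P j k y - hE P j k x| ≤ cE K * T ^ 4 * e := by
  have hT0 : 0 < T := zero_lt_one.trans_le hT
  have he : 0 ≤ e := (abs_nonneg _).trans (h (fun _ => 0) 0 0)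
  have hiC := one_le_iC K 2
  have hpd := pdC_nonneg K 2
  obtain ⟨S, hS⟩ : ∃ S : MvPolynomial (Fin 2) ℝ, S = gpl K σ := ⟨_, rfl⟩
  obtain ⟨u, hu⟩ : ∃ u : Fin 3 → Fin 3 → MvPolynomial (Fin 2) ℝ, u = fun j k =>
    gpl K (fun β => hE P j k (nd K β) - σ β * Q j k) := ⟨_, rfl⟩
  have hue : ∀ j k, rs (pderiv j (pderiv k P)) = u j k + MvPolynomial.C (Q j k) * S := by
    intro j k
    have e1 := gpl_self hK (rs (pderiv j (pderiv k P))) (deg_rs2 hP j k)
    have e2 : (fun β : Gr K 2 => eval (nd K β) (rs (pderiv j (pderiv k P)))) =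
        fun β => hE P j k (nd K β) := by
      funext β
      rw [hE_rs]
    rw [e2] at e1
    rw [← e1, hu, hS]
    refine MvPolynomial.funext fun z => ?_
    rw [map_add, map_mul, eval_gpl, eval_gpl, eval_gpl, MvPolynomial.eval_C, Finset.mul_sum,
      ← Finset.sum_add_distrib]
    exact Finset.sum_congr rfl fun β _ => by ring
  have hud : ∀ j k i z, bx z → |eval z (pderiv i (u j k))| ≤ pdC K 2 * e := by
    intro j k i z hz
    rw [hu]
    exact gpl_pd _ (fun β => h β j k) i (fun i => (hz i).1) (fun i => (hz i).2)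
  have huv : ∀ j k z, bx z → |eval z (u j k)| ≤ iC K 2 * e := by
    intro j k z hz
    rw [hu]
    exact gpl_val _ (fun β => h β j k) (fun i => (hz i).1) (fun i => (hz i).2)
  -- the slices
  have hsl : ∀ k z, eval z (pderiv 0 S) * Q 2 k - eval z (pderiv 1 S) * Q 1 k =
      eval z (pderiv 1 (u 1 k)) - eval z (pderiv 0 (u 2 k)) := by
    intro k z
    have e1 : pderiv 0 (rs (pderiv 2 (pderiv k P))) = pderiv 1 (rs (pderiv 1 (pderiv k P))) := by
      rw [pd_rs, pd_rs]
      congr 1
      exact pd_comm _ _ _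
    rw [hue, hue, map_add, map_add, MvPolynomial.pderiv_C_mul, MvPolynomial.pderiv_C_mul] at e1
    have e2 := congrArg (eval z) e1
    rw [map_add, map_add, map_mul, map_mul, MvPolynomial.eval_C, MvPolynomial.eval_C] at e2
    linarith
  have hgr : ∀ z, bx z → ∀ i, |eval z (pderiv i S)| ≤ 12 * T ^ 3 * (pdC K 2 * e) := by
    intro z hz
    obtain ⟨v, hv⟩ : ∃ v : Fin 3 → ℝ, v = fun k => eval z (pderiv 0 S) * Q 2 k -
      eval z (pderiv 1 S) * Q 1 k := ⟨_, rfl⟩
    have hvb : ∀ k, |v k| ≤ 2 * (pdC K 2 * e) := by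
      intro k
      rw [hv]
      show |eval z (pderiv 0 S) * Q 2 k - eval z (pderiv 1 S) * Q 1 k| ≤ _
      rw [hsl]
      refine (abs_sub _ _).trans ?_
      linarith [hud 1 k 1 z hz, hud 2 k 0 z hz]
    have a0 : |eval z (pderiv 0 S)| * |d3 (Q 0) (Q 1) (Q 2)| ≤
        6 * (T * (T * (2 * (pdC K 2 * e)))) := by
      rw [← abs_mul]
      have e1 : eval z (pderiv 0 S) * d3 (Q 0) (Q 1) (Q 2) = d3 (Q 0) (Q 1) v := by
        rw [hv]
        unfold d3
        ring
      rw [e1]
      exact d3_le (hQ 0) (hQ 1) hvb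
    have a1 : |eval z (pderiv 1 S)| * |d3 (Q 0) (Q 1) (Q 2)| ≤
        6 * (T * (2 * (pdC K 2 * e) * T)) := by
      rw [← abs_mul]
      have e1 : eval z (pderiv 1 S) * d3 (Q 0) (Q 1) (Q 2) = -d3 (Q 0) v (Q 2) := by
        rw [hv]
        unfold d3
        ring
      rw [e1, abs_neg]
      exact d3_le (hQ 0) hvb (hQ 2)
    intro i
    have fin : ∀ A : ℝ, 0 ≤ A → A * |d3 (Q 0) (Q 1) (Q 2)| ≤ 12 * T ^ 2 * (pdC K 2 * e) →
        A ≤ 12 * T ^ 3 * (pdC K 2 * e) := by
      intro A hA hA1
      calc A ≤ T * |d3 (Q 0) (Q 1) (Q 2)| * A := le_mul_of_one_le_left hA hdet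
        _ = T * (A * |d3 (Q 0) (Q 1) (Q 2)|) := by ring
        _ ≤ T * (12 * T ^ 2 * (pdC K 2 * e)) := mul_le_mul_of_nonneg_left hA1 hT0.le
        _ = _ := by ring
    fin_cases i
    · exact fin _ (abs_nonneg _) (a0.trans (le_of_eq (by ring)))
    · exact fin _ (abs_nonneg _) (a1.trans (le_of_eq (by ring)))
  have hSd := dif_small hgr hx hy
  have hval : ∀ z, hE P j k z = eval z (u j k) + Q j k * eval z S := by
    intro z
    rw [hE_rs, hue, map_add, map_mul, MvPolynomial.eval_C]
  rw [hval, hval]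
  have e1 : eval y (u j k) + Q j k * eval y S - (eval x (u j k) + Q j k * eval x S) =
      eval y (u j k) - eval x (u j k) + Q j k * (eval y S - eval x S) := by ring
  rw [e1]
  have h1 : |Q j k * (eval y S - eval x S)| ≤ T * (6 * (12 * T ^ 3 * (pdC K 2 * e))) := by
    rw [abs_mul]
    exact mul_le_mul (hQ j k) hSd (abs_nonneg _) hT0.le
  have h2 := (abs_sub (eval y (u j k)) (eval x (u j k))).trans
    (add_le_add (huv j k y hy) (huv j k x hx))
  refine (abs_add_le _ _).trans ((add_le_add h2 h1).trans ?_)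
  unfold cE
  have h3 : iC K 2 * e ≤ iC K 2 * (T ^ 4 * e) := by
    refine mul_le_mul_of_nonneg_left ?_ (by linarith)
    exact le_mul_of_one_le_left he (one_le_pow₀ hT)
  have e2 : (2 * iC K 2 + 72 * pdC K 2) * T ^ 4 * e = iC K 2 * (T ^ 4 * e) +
      iC K 2 * (T ^ 4 * e) + T * (6 * (12 * T ^ 3 * (pdC K 2 * e))) := by ring
  rw [e2]
  linarith

/-! ### The closed multiple -/

theorem q2_itp {K : ℕ} (hK : 1 ≤ K) {P : MvPolynomial (Fin 3) ℝ} (hP : P.totalDegree ≤ K)
    (V W : Fin 3 → ℝ) (x : Fin 2 → ℝ) : q2 (fun i j => hE P i j x) V W =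
      ∑ β : Gr K 2, ell K β x * q2 (fun i j => hE P i j (nd K β)) V W := by
  have h1 : ∀ i j, hE P i j x = ∑ β : Gr K 2, ell K β x * hE P i j (nd K β) := by
    intro i j
    rw [hE_rs, ell_interp hK _ (deg_rs2 hP i j) x]
    exact Finset.sum_congr rfl fun β _ => by rw [hE_rs]
  unfold q2
  simp only [h1, Fin.sum_univ_three, Finset.sum_mul, ← Finset.sum_add_distrib]
  refine Finset.sum_congr rfl fun β _ => ?_
  ring

/-- The constant. -/
noncomputable def cF (K : ℕ) : ℝ := 2 ^ 87 * iC K 2 + 2 ^ 100 * cE K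

theorem cF_pos (K : ℕ) : 0 < cF K := by
  have h1 := one_le_iC K 2
  have h2 := cE_pos K
  unfold cF
  positivity

/-- **The second derivatives are a closed multiple of the conic of the five vectors.** -/
theorem hE_cls {K : ℕ} (hK : 1 ≤ K) {P : MvPolynomial (Fin 3) ℝ} (hP : P.totalDegree ≤ K)
    {V : Fin 5 → Fin 3 → ℝ} {T e : ℝ}
    (h : NulV (fun (β : Gr K 2) i j => hE P i j (nd K β)) V T e) {X : Fin 3 → ℝ} (hX0 : X 0 = 1)
    (hXT : ∀ j, |X j| ≤ T) {x : Fin 2 → ℝ} (hx : bx x)
    (hacc : |∑ j, ∑ k, X j * X k * hE P j k x| ≤ e) {v : Fin 3 → ℝ}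
    (hv : ∀ i : Fin 2, |v i.succ - ∑ j, X j * hE P j i.succ x| ≤ e) {z : Fin 2 → ℝ} (hz : bx z)
    (j k : Fin 3) :
    |hE P j k z - ivk T V X * v (ix V X) * cqf V j k| ≤ cF K * T ^ 88 * e := by
  have hT := h.gp.one
  have hT0 : 0 < T := zero_lt_one.trans_le hT
  have he : 0 ≤ e := (abs_nonneg _).trans hacc
  have hiC := one_le_iC K 2
  have hcE := cE_pos K
  have hee : e ≤ iC K 2 * e := le_mul_of_one_le_left he hiC
  have h' : NulV (fun (_ : Unit) i j => hE P i j x) V T (iC K 2 * e) := by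
    refine ⟨h.gp, fun _ i => ?_⟩
    show |q2 (fun i j => hE P i j x) (V i) (V i)| ≤ _
    rw [q2_itp hK hP]
    have h1 := ell_sum_near (K := K) (d := 2)
      (fun β => q2 (fun i j => hE P i j (nd K β)) (V i) (V i)) (fun _ => 0) (δ := e)
      (fun β => by
        rw [sub_zero]
        exact h.nul β i) (fun i => (hx i).1) (fun i => (hx i).2)
    simpa using h1
  have h1 := h'.cls (fun _ i j => hE_symm P i j x) () hX0 hXT (v := v) (by
      refine le_trans (le_of_eq ?_) (hacc.trans hee)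
      congr 1
      unfold q2
      refine Finset.sum_congr rfl fun j _ => Finset.sum_congr rfl fun k _ => ?_
      ring) (by
      have h2 := hv 0
      refine le_trans (le_of_eq ?_) (h2.trans hee)
      rw [abs_sub_comm]
      congr 2
      refine Finset.sum_congr rfl fun j _ => ?_
      show hE P 1 j x * X j = X j * hE P j 1 x
      rw [hE_symm P 1 j, mul_comm]) (by
      have h2 := hv 1
      refine le_trans (le_of_eq ?_) (h2.trans hee)
      rw [abs_sub_comm]
      congr 2
      refine Finset.sum_congr rfl fun j _ => ?_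
      show hE P 2 j x * X j = X j * hE P j 2 x
      rw [hE_symm P 2 j, mul_comm]) j k
  choose σ hσ using fun β => h.near (fun β i j => hE_symm P i j (nd K β)) β
  have h2 := hE_const hK hP (Q := cqf V) (T := 2 ^ 20 * T ^ 16) (e := 2 ^ 20 * T ^ 22 * e)
    (one_le_mul_of_one_le_of_one_le (by norm_num) (one_le_pow₀ hT)) (fun i j => cqf_le h.gp i j)
    ((cqf_det h.gp).trans (mul_le_mul_of_nonneg_right
      (le_mul_of_one_le_left (by positivity) (by norm_num)) (abs_nonneg _)))
    (σ := σ) (fun β j k => hσ β j k) hx hz j k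
  have e1 : hE P j k z - ivk T V X * v (ix V X) * cqf V j k = (hE P j k z - hE P j k x) +
      (hE P j k x - ivk T V X * v (ix V X) * cqf V j k) := by ring
  rw [e1]
  refine (abs_add_le _ _).trans ((add_le_add h2 h1).trans ?_)
  unfold cF
  have e2 : cE K * (2 ^ 20 * T ^ 16) ^ 4 * (2 ^ 20 * T ^ 22 * e) =
      2 ^ 100 * cE K * (T ^ 86 * e) := by ring
  rw [e2]
  have h3 : T ^ 86 * e ≤ T ^ 88 * e :=
    mul_le_mul_of_nonneg_right (pow_le_pow_right₀ hT (by norm_num)) he
  have h4 := mul_le_mul_of_nonneg_left h3 (show 0 ≤ 2 ^ 100 * cE K by positivity)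
  refine (add_le_add h4 le_rfl).trans (le_of_eq ?_)
  ring

end Pool.T2L
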