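import Pool.Agent.H92.D2.Imc

/-!
# The target over a slope-one coordinate, two fat coordinates: the letters of one law

`hE P j k x`: the second derivative of `P` (variable `0` = time) at the time `0` and the position `x`.

`T2`: over the letters `TL` of one law in two coordinates, `Ph` is the full chart of the ball, in the
units of the ball, with its precision as unit; its second derivatives vanish on the velocity (`acc`),
the derivative of the gradient along the own line is closed (`ac2`), the chart `Pf` is `Ph` minus a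
closed chart up to affine terms (`rem`), and the velocity is free of the time (`frT`).
-/

set_option autoImplicit false

namespace Pool.T2L

open Finset Real
open Pool.Agent.H49.Ent Pool.Agent.H32.Dense Pool.STK Pool.D2A Pool.D2Con
open Pool.BFL (Pb)
open Pool.D2G30 Pool.V1E
open MvPolynomial (eval pderiv)

/-- The second derivatives at the time `0`. -/
noncomputable def hE (P : MvPolynomial (Fin 3) ℝ) (j k : Fin 3) (x : Fin 2 → ℝ) : ℝ :=
  eval (Fin.cons 0 x) (pderiv j (pderiv k P))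

/-- The second order part of the chart at the node, at the time `0`. -/
noncomputable def sE (P : MvPolynomial (Fin 3) ℝ) (x y : Fin 2 → ℝ) : ℝ :=
  eval (Fin.cons 0 y) P - eval (Fin.cons 0 x) P -
    ∑ i : Fin 2, eval (Fin.cons 0 x) (pderiv i.succ P) * (y i - x i)

/-- The second order part of a polynomial of the position. -/
noncomputable def sF (P : MvPolynomial (Fin 2) ℝ) (x y : Fin 2 → ℝ) : ℝ :=
  eval y P - eval x P - ∑ i : Fin 2, eval x (pderiv i P) * (y i - x i)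

/-- **The letters of one law: second order.** -/
structure T2 (K D Q MB N₀ : ℕ) (δ : ℝ) {Ω Λ ζ α ε κ R₀ : Type} [Fintype Ω] (q : Ω → ℝ)
    (L : Ω → Λ) (T : Ω → ℕ) (Z : Ω → ζ) (a : Ω → α) (E : Ω → ε) (X : ε → Fin 3 → ℝ)
    (Pf : ζ → MvPolynomial (Fin 2) ℝ) (c : Λ → κ) (s : Ω → Fin 2 → ℝ) (ξ : Λ → Fin 2 → ℝ)
    (Ph : ζ → MvPolynomial (Fin 3) ℝ) (Ψ : Λ → Fin 2 → Polynomial ℝ)
    (R : Λ → Gr K 2 → Polynomial ℝ) (ρ : Λ → R₀) : Prop where
  dgh : ∀ z, (Ph z).totalDegree ≤ K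
  X0 : ∀ ω, 0 < q ω → X (E ω) 0 = 1
  acc : Pb q (fun ω => 2 ^ (δ * Q) < |∑ j, ∑ k, X (E ω) j * X (E ω) k *
    hE (Ph (Z ω)) j k (fun i => s ω i + ξ (L ω) i)|) ≤ δ
  dgΨ : ∀ l i, (Ψ l i).natDegree ≤ D
  ac2 : Pb q (fun ω => ∃ i : Fin 2, 2 ^ (δ * Q) < |(Ψ (L ω) i).eval (uu N₀ T ω) -
    ∑ j, X (E ω) j * hE (Ph (Z ω)) j i.succ (fun i => s ω i + ξ (L ω) i)|) ≤ δ
  dgR : ∀ l β, (R l β).natDegree ≤ D
  rem : Pb q (fun ω => ∃ β : Gr K 2, 2 ^ (δ * Q) / 2 ^ MB <
    |sF (Pf (Z ω)) (fun i => s ω i + ξ (L ω) i) (fun i => s ω i + nd K β i) -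
      sE (Ph (Z ω)) (fun i => s ω i + ξ (L ω) i) (fun i => s ω i + nd K β i) / 2 ^ MB +
      (R (L ω) β).eval (uu N₀ T ω)|) ≤ δ
  dρ : Det q a (fun ω => ρ (L ω))
  frT : CH q E (fun ω => (ρ (L ω), T ω)) ≤ CH q E Z + δ * Q
  cfew : CH q (fun ω => c (L ω)) (fun ω => (E ω, a ω)) ≤ δ * Q

end Pool.T2L
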