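import Pool.Agent.H39.T2.Def
import Pool.Agent.H69.CD.Vps

/-!
# A polynomial of the ball and of the velocity which is small at the own position

`tl_pos`: then it is small at all nodes.
-/

set_option autoImplicit false

namespace Pool.T2L

open Finset Real
open Pool.Agent.H49.Ent Pool.Agent.H32.Dense Pool.STK Pool.D2A Pool.D2Con
open Pool.BFL (Pb)
open Pool.D2G30 Pool.V1E
open MvPolynomial (eval pderiv)

/-- The normalised values. -/
theorem nrm_ex {K d : ℕ} (v : Gr K d → ℝ) : ∃ (m : ℝ) (nn : Gr K d → ℝ), 0 ≤ m ∧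
    (∀ β, |nn β| ≤ 1) ∧ (∃ β, |nn β| = 1) ∧ ∀ β, v β = m * nn β := by
  classical
  obtain ⟨β₀, -, hβ₀⟩ := Finset.exists_max_image (Finset.univ : Finset (Gr K d))
    (fun β => |v β|) ⟨fun _ => 0, Finset.mem_univ _⟩
  have hmax : ∀ β, |v β| ≤ |v β₀| := fun β => hβ₀ β (Finset.mem_univ β)
  rcases (abs_nonneg (v β₀)).lt_or_eq with h | h
  · refine ⟨|v β₀|, fun β => v β / |v β₀|, h.le, fun β => ?_, ⟨β₀, ?_⟩, fun β => ?_⟩
    · rw [abs_div, abs_abs, div_le_one h]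
      exact hmax β
    · rw [abs_div, abs_abs, div_self h.ne']
    · rw [mul_div_cancel₀ _ h.ne']
  · refine ⟨0, fun _ => 1, le_rfl, fun _ => by norm_num, ⟨β₀, by norm_num⟩, fun β => ?_⟩
    have h1 := hmax β
    rw [← h] at h1
    rw [zero_mul]
    exact abs_eq_zero.1 (le_antisymm h1 (abs_nonneg _))

/-- The Lipschitz constant. -/
noncomputable def lpC (K d : ℕ) : ℝ := (K + 1) ^ d * (d * K ^ 2 * lgC K ^ (d + 1))

/-- The constant of the reading. -/
noncomputable def c1C (K d : ℕ) : ℝ :=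
  iC K d * ((1 + (K + 1) ^ d * lgC K ^ d) * (2 * 2 ^ ((K + 1) * d)) + 1)

theorem lpC_nonneg (K d : ℕ) : 0 ≤ lpC K d := by
  have := one_le_lgC K
  unfold lpC
  positivity

theorem c1C_one (K d : ℕ) : 1 ≤ c1C K d := by
  have h1 := one_le_iC K d
  have h2 := one_le_lgC K
  unfold c1C
  have h3 : (0 : ℝ) ≤ (1 + (K + 1) ^ d * lgC K ^ d) * (2 * 2 ^ ((K + 1) * d)) := by positivity
  nlinarith

theorem pA_le (K d g : ℕ) : iC K d * pA K d g ≤ c1C K d * 2 ^ (K * d * g) := by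
  have h1 := one_le_iC K d
  have h2 := one_le_lgC K
  unfold pA c1C
  have e1 : (2 : ℝ) ^ ((K * g + K + 1) * d) = 2 ^ (K * d * g) * 2 ^ ((K + 1) * d) := by
    rw [← pow_add]
    congr 1
    ring
  rw [e1, mul_assoc (iC K d)]
  refine mul_le_mul_of_nonneg_left ?_ (by linarith)
  have h3 : (1 : ℝ) ≤ 2 ^ (K * d * g) := one_le_pow₀ (by norm_num)
  have e2 : ((1 + (K + 1) ^ d * lgC K ^ d) * (2 * 2 ^ ((K + 1) * d)) + 1) * 2 ^ (K * d * g) =
      (1 + (K + 1) ^ d * lgC K ^ d) * (2 * (2 ^ (K * d * g) * 2 ^ ((K + 1) * d))) +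
        2 ^ (K * d * g) := by ring
  rw [e2]
  linarith

/-- **A polynomial of the ball and of the velocity which is small at the own position.** -/
theorem tl_pos (K d D CM : ℕ) {ε : ℝ} (hε : 0 < ε) : ∃ δ : ℝ, 0 < δ ∧ δ ≤ ε ∧ ∃ Q₀ : ℕ,
    ∀ {Q MB k N₀ : ℕ}, Q₀ ≤ Q → ∀ {Ω Λ ζ α ε' κ : Type} [Fintype Ω]
    {q : Ω → ℝ} {L : Ω → Λ} {T : Ω → ℕ} {Z : Ω → ζ} {a : Ω → α} {E : Ω → ε'}
    {X : ε' → Fin (d + 1) → ℝ} {Pf : ζ → MvPolynomial (Fin d) ℝ}
    {Pg : ζ → Fin (d + 1) → MvPolynomial (Fin d) ℝ} {c : Λ → κ} {s : Ω → Fin d → ℝ}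
    {ξ : Λ → Fin d → ℝ} {n : Λ → Polynomial ℝ} {Θ : Λ → Fin d → Polynomial ℝ},
    TL K d D CM Q MB k N₀ δ q L T Z a E X Pf Pg c s ξ n Θ →
    CH q (fun ω => c (L ω)) (fun ω => (E ω, a ω)) ≤ δ * Q →
    ∀ P : ζ → ε' → MvPolynomial (Fin d) ℝ, (∀ z e, (P z e).totalDegree ≤ K) →
    Pb q (fun ω => 2 ^ (δ * Q) < |eval (fun i => s ω i + ξ (L ω) i) (P (Z ω) (E ω))|) ≤ δ →
    Pb q (fun ω => ∃ β : Gr K d, 2 ^ (ε * Q) < |eval (nd K β) (P (Z ω) (E ω))|) ≤ ε := by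
  classical
  have l2 : (1 : ℝ) / 2 ≤ Real.log 2 := by
    have := Real.log_two_gt_d9
    linarith
  have l2' : Real.log 2 ≤ 1 := by
    have := Real.log_two_lt_d9
    linarith
  obtain ⟨ep, hep⟩ : ∃ ep : ℝ, ep = min ε 1 := ⟨_, rfl⟩
  have hep0 : 0 < ep := by rw [hep]; exact lt_min hε one_pos
  have hepε : ep ≤ ε := by rw [hep]; exact min_le_left _ _
  have hep1 : ep ≤ 1 := by rw [hep]; exact min_le_right _ _
  have hKd : (0 : ℝ) ≤ (K : ℝ) * d := by positivity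
  obtain ⟨e1, he1⟩ : ∃ e1 : ℝ, e1 = ep / (8 * (K * d + 1)) := ⟨_, rfl⟩
  have he10 : 0 < e1 := by rw [he1]; positivity
  have he1m : (K * d : ℝ) * e1 ≤ ep / 8 := by
    rw [he1, ← mul_div_assoc, div_le_div_iff₀ (by positivity) (by norm_num)]
    nlinarith
  obtain ⟨Q₁, hQ₁⟩ := const_le (C := 2 * (lpC K d + 1) * c1C K d) (ε := 1 / 2) (by norm_num)
  obtain ⟨Q₂, hQ₂⟩ := const_le (C := 2 * c1C K d) (ε := ep / 4) (by positivity)
  obtain ⟨Q₃, hQ₃⟩ := exists_nat_ge ((8 * (Real.log (d * K) + 1) + 8) / e1)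
  obtain ⟨Q₄, hQ₄⟩ := exists_nat_ge (16 / (ep * e1))
  obtain ⟨δ, hδ⟩ : ∃ δ : ℝ, δ = min (ep / 4) (ep * e1 / 32) := ⟨_, rfl⟩
  have hδ0 : 0 < δ := by rw [hδ]; exact lt_min (by positivity) (by positivity)
  have hδ1 : δ ≤ ep / 4 := by rw [hδ]; exact min_le_left _ _
  have hδ2 : δ ≤ ep * e1 / 32 := by rw [hδ]; exact min_le_right _ _
  refine ⟨δ, hδ0, by linarith, max (max Q₁ Q₂) (max Q₃ Q₄), ?_⟩
  intro Q MB k N₀ hQ Ω Λ ζ α ε' κ _ q L T Z a E X Pf Pg c s ξ n Θ h hc P hPd hP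
  have hQ1 := hQ₁ Q (((le_max_left _ _).trans (le_max_left _ _)).trans hQ)
  have hQ2 := hQ₂ Q (((le_max_right _ _).trans (le_max_left _ _)).trans hQ)
  have hQ3 : (8 * (Real.log (d * K) + 1) + 8) / e1 ≤ Q :=
    hQ₃.trans (by exact_mod_cast ((le_max_left _ _).trans (le_max_right _ _)).trans hQ)
  have hQ4 : 16 / (ep * e1) ≤ Q :=
    hQ₄.trans (by exact_mod_cast ((le_max_right _ _).trans (le_max_right _ _)).trans hQ)
  rw [div_le_iff₀ he10] at hQ3
  rw [div_le_iff₀ (by positivity)] at hQ4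
  have hq := h.law
  have h0 := hq.nonneg
  have hQ0 : (0 : ℝ) ≤ Q := Nat.cast_nonneg Q
  have hC := one_le_lgC K
  have hiC := one_le_iC K d
  have hlp := lpC_nonneg K d
  have hc1 := c1C_one K d
  -- the number of digits
  obtain ⟨g, hg⟩ : ∃ g : ℕ, g = ⌊e1 * Q⌋₊ := ⟨_, rfl⟩
  have hg1 : (g : ℝ) ≤ e1 * Q := by rw [hg]; exact Nat.floor_le (by positivity)
  have hg2 : e1 * Q < g + 1 := by rw [hg]; exact Nat.lt_floor_add_one _
  have he1' : e1 ≤ 1 := by
    rw [he1, div_le_one (by positivity)]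
    nlinarith
  have hgk : g ≤ k := by
    have h1 : (g : ℝ) ≤ Q := hg1.trans (mul_le_of_le_one_left hQ0 he1')
    have h2 : g ≤ Q := by exact_mod_cast h1
    exact h2.trans (h.hQ.trans h.hk)
  have hpA := pA_pos K d g
  -- the normalised values
  choose m nn hm0 hn1 hn2 hmn using fun W : ζ × ε' => nrm_ex (K := K) (d := d)
    (fun β => eval (nd K β) (P W.1 W.2))
  have f1 : CH q (fun ω => c (L ω)) (fun ω => (Z ω, E ω)) ≤ δ * Q :=
    (CH_mono_cond h0 fun ω ω' hω hω' e => by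
      obtain ⟨e1, e2⟩ := Prod.ext_iff.1 e
      show (E ω, a ω) = (E ω', a ω')
      rw [show E ω = E ω' from e2, h.Za ω ω' hω hω' e1]).trans hc
  have f2 : d * (k * Real.log 2) - 2 * (δ * Q) ≤ CH q (xd k L ξ)
      (fun ω => (c (L ω), (Z ω, E ω))) := by
    have h1 := CH_le_add h0 (xd k L ξ) (fun ω => c (L ω)) (fun ω => (Z ω, E ω))
    have h2 := h.full
    linarith
  have key := nohyp_pos h.hK h.hd hgk hq (fun ω => (Z ω, E ω)) (fun ω => c (L ω)) (xd k L ξ)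
      (fun ω hω i => (xd_near (k := k) (L := L) h.ξ0 h.ξ1 ω i).2) s h.s1
      (fun ω ω' hω hω' e => by
        obtain ⟨e1, e2⟩ := Prod.ext_iff.1 e
        obtain ⟨e3, e4⟩ := Prod.ext_iff.1 e2
        refine h.sc ω ω' hω hω' ?_
        show (c (L ω), (E ω, a ω)) = (c (L ω'), (E ω', a ω'))
        rw [show c (L ω) = c (L ω') from e1, show E ω = E ω' from e4, h.Za ω ω' hω hω' e3])
      f2 nn (fun ω _ => hn2 _)
  obtain ⟨A, hA⟩ : ∃ A : Ω → Prop, A = fun ω =>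
    |fv K (nn (Z ω, E ω)) (fun i => s ω i + pt k (xd k L ξ ω) i)| ≤
      1 / (iC K d * pA K d g) := ⟨_, rfl⟩
  obtain ⟨B, hB⟩ : ∃ B : Ω → Prop, B = fun ω =>
    2 ^ (δ * Q) < |eval (fun i => s ω i + ξ (L ω) i) (P (Z ω) (E ω))| := ⟨_, rfl⟩
  have hPA0 : 0 ≤ Pb q A := by
    rw [← Pb_law]
    exact law_nonneg h0 _ _
  have hPA : Pb q A ≤ ep / 2 := by
    have k1 : Pb q A * (g * Real.log 2 - Real.log (d * K)) ≤ 2 * (δ * Q) + Real.log 2 := by
      rw [hA]
      exact key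
    have k2 : e1 * Q / 4 ≤ g * Real.log 2 - Real.log (d * K) := by
      have : (g : ℝ) * (1 / 2) ≤ g * Real.log 2 := mul_le_mul_of_nonneg_left l2 (Nat.cast_nonneg g)
      linarith
    have k3 : Pb q A * (e1 * Q / 4) ≤ 2 * (δ * Q) + 1 := by
      have := mul_le_mul_of_nonneg_left k2 hPA0
      linarith
    have k4 : 2 * (δ * Q) ≤ ep * e1 * Q / 16 := by
      have := mul_le_mul_of_nonneg_right hδ2 hQ0
      linarith
    have k5 : (1 : ℝ) ≤ ep * e1 * Q / 16 := by linarith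
    by_contra hcon
    push Not at hcon
    have k6 : 0 < e1 * Q / 4 := by
      have : 0 < e1 * Q := by
        by_contra hneg
        push Not at hneg
        have : ep * e1 * Q = ep * (e1 * Q) := by ring
        nlinarith
      linarith
    have k7 := mul_lt_mul_of_pos_right hcon k6
    nlinarith
  have hPB : Pb q B ≤ ep / 4 := by
    rw [hB]
    exact hP.trans hδ1
  have hor := Pb_or h0 (G := fun ω => ∃ β : Gr K d, 2 ^ (ε * Q) <
      |eval (nd K β) (P (Z ω) (E ω))|) (A := A) (B := B) (by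
    rintro ω hω ⟨β, hβ⟩
    by_contra hcon
    push Not at hcon
    obtain ⟨hA', hB'⟩ := hcon
    rw [hA] at hA'
    rw [hB] at hB'
    push Not at hA' hB'
    obtain ⟨θ, hθ⟩ : ∃ θ : ℝ, θ = 1 / (iC K d * pA K d g) := ⟨_, rfl⟩
    rw [← hθ] at hA'
    have hθ0 : 0 < θ := by rw [hθ]; positivity
    -- the two points
    have hxi : ∀ i, -1 ≤ s ω i + ξ (L ω) i ∧ s ω i + ξ (L ω) i ≤ 2 := by
      intro i
      have g1 := abs_le.1 (h.s1 ω hω i)
      have g2 := h.ξ0 (L ω) i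
      have g3 := h.ξ1 (L ω) i
      exact ⟨by linarith [g1.1], by linarith [g1.2]⟩
    have hpt : ∀ i, -1 ≤ s ω i + pt k (xd k L ξ ω) i ∧ s ω i + pt k (xd k L ξ ω) i ≤ 2 := by
      intro i
      have g1 := abs_le.1 (h.s1 ω hω i)
      have hp : ∀ i, xd k L ξ ω i < 2 ^ k := fun i => (xd_near (k := k) (L := L) h.ξ0 h.ξ1 ω i).2
      have g2 := pt_mem hp i
      exact ⟨by linarith [g1.1, g2.1], by linarith [g1.2, g2.2]⟩
    have hitp := itp_pt (K := K) (d := d) (G := nn (Z ω, E ω)) (B := 1) (δ := 1 / 2 ^ k)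
      (hn1 _) (x := fun i => s ω i + ξ (L ω) i) (y := fun i => s ω i + pt k (xd k L ξ ω) i)
      (fun i => (hxi i).1) (fun i => (hxi i).2) (fun i => (hpt i).1) (fun i => (hpt i).2)
      (by positivity) (fun i => by
        have := (xd_near (k := k) (L := L) h.ξ0 h.ξ1 ω i).1
        rwa [add_sub_add_left_eq_sub])
    have hfv : fv K (nn (Z ω, E ω)) (fun i => s ω i + pt k (xd k L ξ ω) i) =
        itp (nn (Z ω, E ω)) (fun i => s ω i + pt k (xd k L ξ ω) i) := by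
      unfold fv itp
      exact Finset.sum_congr rfl fun β _ => mul_comm _ _
    rw [hfv] at hA'
    have hval : eval (fun i => s ω i + ξ (L ω) i) (P (Z ω) (E ω)) =
        m (Z ω, E ω) * itp (nn (Z ω, E ω)) (fun i => s ω i + ξ (L ω) i) := by
      rw [ell_interp h.hK _ (hPd _ _), itp, Finset.mul_sum]
      refine Finset.sum_congr rfl fun β _ => ?_
      have := hmn (Z ω, E ω) β
      simp only at this
      rw [this]
      ring
    rw [hval, abs_mul, abs_of_nonneg (hm0 _)] at hB'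
    have hpow : (2 : ℝ) ^ (K * d * g) ≤ 2 ^ (ep / 8 * Q) := by
      rw [← Real.rpow_natCast]
      refine Real.rpow_le_rpow_of_exponent_le (by norm_num) ?_
      push_cast
      calc (K : ℝ) * d * g ≤ K * d * (e1 * Q) := mul_le_mul_of_nonneg_left hg1 hKd
        _ = (K * d * e1) * Q := by ring
        _ ≤ ep / 8 * Q := mul_le_mul_of_nonneg_right he1m hQ0
    have hθ1 : 1 ≤ c1C K d * 2 ^ (ep / 8 * Q) * θ := by
      have g1 := (pA_le K d g).trans (mul_le_mul_of_nonneg_left hpow (by linarith))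
      have g2 := mul_le_mul_of_nonneg_right g1 hθ0.le
      refine le_trans (le_of_eq ?_) g2
      rw [hθ, mul_one_div, div_self (by positivity)]
    have hsmall : lpC K d * (1 / 2 ^ k * 1) ≤ θ / 2 := by
      have g1 : (2 : ℝ) ^ ((1 : ℝ) / 2 * Q) * 2 ^ (ep / 8 * Q) ≤ 2 ^ k := by
        rw [← Real.rpow_add (by norm_num), ← Real.rpow_natCast]
        refine Real.rpow_le_rpow_of_exponent_le (by norm_num) ?_
        have g2 : (Q : ℝ) ≤ k := by exact_mod_cast h.hQ.trans h.hk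
        have g3 : ep / 8 * Q ≤ 1 / 8 * Q := mul_le_mul_of_nonneg_right (by linarith) hQ0
        linarith
      have g2 : 2 * lpC K d * (c1C K d * 2 ^ (ep / 8 * Q)) ≤ 2 ^ k := by
        refine le_trans ?_ g1
        have g3 : 2 * lpC K d * c1C K d ≤ 2 ^ ((1 : ℝ) / 2 * Q) := by
          refine le_trans ?_ hQ1
          nlinarith
        calc 2 * lpC K d * (c1C K d * 2 ^ (ep / 8 * Q))
            = 2 * lpC K d * c1C K d * 2 ^ (ep / 8 * Q) := by ring
          _ ≤ _ := mul_le_mul_of_nonneg_right g3 (by positivity)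
      have g4 : (0 : ℝ) < 2 ^ k := by positivity
      rw [mul_one, mul_one_div, div_le_div_iff₀ g4 (by norm_num)]
      have g5 : lpC K d * 2 ≤ lpC K d * 2 * (c1C K d * 2 ^ (ep / 8 * Q) * θ) :=
        le_mul_of_one_le_right (by positivity) hθ1
      have g6 := mul_le_mul_of_nonneg_right g2 hθ0.le
      nlinarith
    have hbig : θ / 2 ≤ |itp (nn (Z ω, E ω)) (fun i => s ω i + ξ (L ω) i)| := by
      have g1 := abs_sub_abs_le_abs_sub (itp (nn (Z ω, E ω))
        (fun i => s ω i + pt k (xd k L ξ ω) i)) (itp (nn (Z ω, E ω))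
        (fun i => s ω i + ξ (L ω) i))
      rw [abs_sub_comm] at g1
      have g2 : |itp (nn (Z ω, E ω)) (fun i => s ω i + ξ (L ω) i) -
          itp (nn (Z ω, E ω)) (fun i => s ω i + pt k (xd k L ξ ω) i)| ≤
          lpC K d * (1 / 2 ^ k * 1) := hitp
      linarith
    have hm : m (Z ω, E ω) ≤ 2 ^ (δ * Q) * (2 * (c1C K d * 2 ^ (ep / 8 * Q))) := by
      have g1 := mul_le_mul_of_nonneg_left hbig (hm0 (Z ω, E ω))
      have g2 : m (Z ω, E ω) * (θ / 2) ≤ 2 ^ (δ * Q) := g1.trans hB'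
      calc m (Z ω, E ω) ≤ m (Z ω, E ω) * (c1C K d * 2 ^ (ep / 8 * Q) * θ) :=
            le_mul_of_one_le_right (hm0 _) hθ1
        _ = m (Z ω, E ω) * (θ / 2) * (2 * (c1C K d * 2 ^ (ep / 8 * Q))) := by ring
        _ ≤ _ := mul_le_mul_of_nonneg_right g2 (by positivity)
    have hfin : (2 : ℝ) ^ (δ * Q) * (2 * (c1C K d * 2 ^ (ep / 8 * Q))) ≤ 2 ^ (ε * Q) := by
      calc (2 : ℝ) ^ (δ * Q) * (2 * (c1C K d * 2 ^ (ep / 8 * Q)))
          = 2 ^ (δ * Q) * ((2 * c1C K d) * 2 ^ (ep / 8 * Q)) := by ring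
        _ ≤ 2 ^ (ep / 4 * Q) * (2 ^ (ep / 4 * Q) * 2 ^ (ep / 8 * Q)) := by
            refine mul_le_mul (two_mono hδ1 Q) ?_ (by positivity) (by positivity)
            exact mul_le_mul_of_nonneg_right hQ2 (by positivity)
        _ = 2 ^ ((5 * ep / 8) * Q) := by
            rw [← Real.rpow_add (by norm_num), ← Real.rpow_add (by norm_num)]
            congr 1
            ring
        _ ≤ _ := two_mono (by linarith) Q
    have hlast : |eval (nd K β) (P (Z ω) (E ω))| ≤ m (Z ω, E ω) := by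
      have := hmn (Z ω, E ω) β
      simp only at this
      rw [this, abs_mul, abs_of_nonneg (hm0 _)]
      exact mul_le_of_le_one_right (hm0 _) (hn1 _ β)
    linarith)
  linarith

end Pool.T2L
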